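import Pool.Agent.Helper62.HoveyT.MainT
import Pool.Agent.Helper24.TopA
import Pool.Agent.Helper40.TopB

/-!
# The topologies for an action of a complete noetherian ring
-/

open CategoryTheory CategoryTheory.Limits CategoryTheory.Pretriangulated

universe v u

namespace Pool.Agent.Helper62.Hovey

variable {T : Type u} [Category.{v} T] [Preadditive T] {ι : Type} {c : ι → T} {E : T}

/-- the topologies for an action of a complete noetherian ring -/
def adicTop {A : Type v} [CommRing A] [IsNoetherianRing A] (𝔞 : Ideal A) [IsAdicComplete 𝔞 A] (ρ : A →+* End E)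
    (h : ∀ i, AF A (HomMod ρ (c i))) : LinTop ρ c where
  opens i := Opn 𝔞 (HomMod ρ (c i))
  nonempty i := ⟨⊤, opn_top (h i)⟩
  dir i U hU V hV := ⟨U ⊓ V, opn_inf hU hV, inf_le_left, inf_le_right⟩
  cont {i j} k U hU := ⟨U.comap (pre ρ k), opn_comap (IsAdicComplete.le_jacobson_bot 𝔞) (h j) (pre ρ k) hU, le_rfl⟩
  strict {i j} k V hV := opn_strict (IsAdicComplete.le_jacobson_bot 𝔞) (h j) (h i) (pre ρ k) hV
  complete i m hm := opn_complete (h i) m hm
  hausdorff i x hx := opn_hausdorff (𝔞 := 𝔞) (h i) x hx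

end Pool.Agent.Helper62.Hovey
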