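import Pool.Agent.Helper62.HoveyT.HomologyT
import Pool.Agent.Helper62.Hovey.MainA

/-!
# Small objects are acyclic
-/

open CategoryTheory CategoryTheory.Limits CategoryTheory.Pretriangulated

universe v u

namespace Pool.Agent.Helper62.Hovey

variable {T : Type u} [Category.{v} T] [HasZeroObject T] [HasShift T ℤ] [Preadditive T]
  [∀ n : ℤ, (shiftFunctor T n).Additive] [Pretriangulated T] [HasCoproducts.{v} T]

variable {ι : Type} {c : ι → T} {A : Type*} [Ring A] {E : T} {ρ : A →+* End E} (τ : LinTop ρ c)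

variable {τ} in
lemma LinTop.Small.of_iso {X Y : T} (e : X ≅ Y) (h : τ.Small X) : τ.Small Y := by
  intro i f U hU
  obtain ⟨j, g, k, hf, hg⟩ := h i (f ≫ e.inv) U hU
  refine ⟨j, g, k ≫ e.hom, ?_, hg⟩
  rw [← Category.assoc, ← hf, Category.assoc, e.inv_hom_id, Category.comp_id]

variable {τ} in
/-- the morphisms to `E` vanish on the generators -/
lemma LinTop.Small.comp_eq_zero {X : T} (h : τ.Small X) (y : X ⟶ E) (i : ι) (f : c i ⟶ X) : f ≫ y = 0 := by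
  apply τ.hausdorff i (f ≫ y)
  intro U hU
  obtain ⟨j, g, k, hf, hg⟩ := h i f U hU
  apply hg
  refine ⟨k ≫ y, ?_⟩
  change g ≫ k ≫ y = f ≫ y
  rw [hf, Category.assoc]

section Torsor

variable {X Y : T} (a : E ⟶ Y) (p : Y ⟶ X)

/-- a distinguished lift of `f` -/
def LinTop.IsGood {i : ι} (f : c i ⟶ X) (l : c i ⟶ Y) : Prop :=
  l ≫ p = f ∧ ∀ U ∈ τ.opens i, ∃ (j : ι) (g : c i ⟶ c j) (v : c j ⟶ Y) (x : HomMod ρ (c i)),
    f = g ≫ v ≫ p ∧ LinearMap.range (pre ρ g) ≤ U ∧ x ∈ U ∧ l - g ≫ v = (show c i ⟶ E from x) ≫ a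

variable (hc : IsCountableGen.{v} c) (hker : ∀ (i : ι) (u : c i ⟶ Y), u ≫ p = 0 → ∃ e : c i ⟶ E, u = e ≫ a)
  (hinj : ∀ (i : ι) (e : c i ⟶ E), e ≫ a = 0 → e = 0)
  (hlift : ∀ (i : ι) (f : c i ⟶ X), ∃ u : c i ⟶ Y, u ≫ p = f)

include hc hker hlift in
/-- comparison of two factorisations -/
lemma compare {i : ι} (U : Submodule A (HomMod ρ (c i))) {j j' : ι} (g : c i ⟶ c j) (v : c j ⟶ Y)
    (g' : c i ⟶ c j') (v' : c j' ⟶ Y) (hw : g ≫ v ≫ p = g' ≫ v' ≫ p) (hg : LinearMap.range (pre ρ g) ≤ U)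
    (hg' : LinearMap.range (pre ρ g') ≤ U) :
    ∃ x : HomMod ρ (c i), x ∈ U ∧ g ≫ v - g' ≫ v' = (show c i ⟶ E from x) ≫ a := by
  obtain ⟨l, m, s, s', hs, hs', hss⟩ := exists_span hc g (v ≫ p) g' (v' ≫ p) hw
  obtain ⟨w, hw⟩ := hlift l m
  obtain ⟨e, he⟩ := hker j (v - s ≫ w) (by
    rw [Preadditive.sub_comp, Category.assoc, hw, hs, sub_self])
  obtain ⟨e', he'⟩ := hker j' (v' - s' ≫ w) (by
    rw [Preadditive.sub_comp, Category.assoc, hw, hs', sub_self])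
  refine ⟨pre ρ g e - pre ρ g' e', sub_mem (hg ⟨e, rfl⟩) (hg' ⟨e', rfl⟩), ?_⟩
  change g ≫ v - g' ≫ v' = (g ≫ e - g' ≫ e') ≫ a
  rw [Preadditive.sub_comp, Category.assoc, Category.assoc, ← he, ← he', Preadditive.comp_sub,
    Preadditive.comp_sub, ← Category.assoc g s, ← Category.assoc g' s', hss]
  abel

include hc hker hinj hlift in
lemma LinTop.IsGood.unique {i : ι} {f : c i ⟶ X} {l l' : c i ⟶ Y} (h : τ.IsGood a p f l)
    (h' : τ.IsGood a p f l') : l = l' := by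
  obtain ⟨z, hz⟩ := hker i (l - l') (by rw [Preadditive.sub_comp, h.1, h'.1, sub_self])
  have hz0 : z = 0 := by
    apply τ.hausdorff i z
    intro U hU
    obtain ⟨j, g, v, x, hf, hg, hx, hl⟩ := h.2 U hU
    obtain ⟨j', g', v', x', hf', hg', hx', hl'⟩ := h'.2 U hU
    obtain ⟨y, hy, hgv⟩ := compare a p hc hker hlift U g v g' v' (hf.symm.trans hf') hg hg'
    have h1 : (z - ((show c i ⟶ E from x) - (show c i ⟶ E from x') + (show c i ⟶ E from y))) ≫ a = 0 := by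
      rw [Preadditive.sub_comp, Preadditive.add_comp, Preadditive.sub_comp, ← hz, ← hl, ← hl', ← hgv]
      abel
    have h2 := hinj i _ h1
    rw [sub_eq_zero.mp h2]
    exact add_mem (sub_mem hx hx') hy
  rw [← sub_eq_zero, hz, hz0, zero_comp]

include hc hker hinj hlift in
lemma LinTop.Small.exists_good (hap : a ≫ p = 0) (hX : τ.Small X) {i : ι} (f : c i ⟶ X) :
    ∃ l, τ.IsGood a p f l := by
  classical
  obtain ⟨u, hu⟩ := hlift i f
  have hch : ∀ U : Submodule A (HomMod ρ (c i)), ∃ (j : ι) (g : c i ⟶ c j) (v : c j ⟶ Y) (m : c i ⟶ E),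
      U ∈ τ.opens i → (f = g ≫ v ≫ p ∧ LinearMap.range (pre ρ g) ≤ U ∧ g ≫ v - u = m ≫ a) := by
    intro U
    by_cases hU : U ∈ τ.opens i
    · obtain ⟨j, g, h, hf, hg⟩ := hX i f U hU
      obtain ⟨v, hv⟩ := hlift j h
      obtain ⟨m, hm⟩ := hker i (g ≫ v - u) (by
        rw [Preadditive.sub_comp, Category.assoc, hv, hu, hf, sub_self])
      exact ⟨j, g, v, m, fun _ => ⟨by rw [hv, hf], hg, hm⟩⟩
    · exact ⟨i, 𝟙 _, 0, 0, fun h => absurd h hU⟩
  choose j g v m hm using hch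
  obtain ⟨x, hx⟩ := τ.complete i m (by
    intro U hU V hV hVU
    obtain ⟨h1, h2, h3⟩ := hm U hU
    obtain ⟨h1', h2', h3'⟩ := hm V hV
    obtain ⟨y, hy, hgv⟩ := compare a p hc hker hlift U (g V) (v V) (g U) (v U) (h1'.symm.trans h1)
      (h2'.trans hVU) h2
    have h4 : ((m V - m U) - (show c i ⟶ E from y)) ≫ a = 0 := by
      rw [Preadditive.sub_comp, Preadditive.sub_comp, ← h3, ← h3', ← hgv]
      abel
    have h5 := hinj i _ h4
    have h6 : (m V - m U : c i ⟶ E) = (show c i ⟶ E from y) := sub_eq_zero.mp h5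
    change (m V - m U : c i ⟶ E) ∈ U.toAddSubgroup
    rw [h6]
    exact hy)
  refine ⟨u + (show c i ⟶ E from x) ≫ a, ?_, ?_⟩
  · rw [Preadditive.add_comp, hu, Category.assoc, hap, comp_zero, add_zero]
  · intro U hU
    obtain ⟨h1, h2, h3⟩ := hm U hU
    refine ⟨j U, g U, v U, (show c i ⟶ E from x) - m U, h1, h2, hx U hU, ?_⟩
    change u + (show c i ⟶ E from x) ≫ a - g U ≫ v U = ((show c i ⟶ E from x) - m U) ≫ a
    rw [Preadditive.sub_comp, ← h3]
    abel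

lemma LinTop.IsGood.nat {i' i : ι} (k : c i' ⟶ c i) {f : c i ⟶ X} {l : c i ⟶ Y} (h : τ.IsGood a p f l) :
    τ.IsGood a p (k ≫ f) (k ≫ l) := by
  refine ⟨by rw [Category.assoc, h.1], fun U hU => ?_⟩
  obtain ⟨V, hV, hVU⟩ := τ.cont k U hU
  obtain ⟨j, g, v, x, hf, hg, hx, hl⟩ := h.2 V hV
  refine ⟨j, k ≫ g, v, pre ρ k x, ?_, ?_, hVU hx, ?_⟩
  · rw [hf, Category.assoc]
  · rw [← map_range_pre]
    exact (Submodule.map_mono (hg.trans hVU)).trans (Submodule.map_comap_le _ _)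
  · change k ≫ l - (k ≫ g) ≫ v = (k ≫ (show c i ⟶ E from x)) ≫ a
    rw [Category.assoc, Category.assoc, ← hl, Preadditive.comp_sub]

include hc hker hlift in
lemma LinTop.IsGood.add {i : ι} {f f' : c i ⟶ X} {l l' : c i ⟶ Y} (h : τ.IsGood a p f l)
    (h' : τ.IsGood a p f' l') : τ.IsGood a p (f + f') (l + l') := by
  refine ⟨by rw [Preadditive.add_comp, h.1, h'.1], fun U hU => ?_⟩
  obtain ⟨j, g, v, x, hf, hg, hx, hl⟩ := h.2 U hU
  obtain ⟨j', g', v', x', hf', hg', hx', hl'⟩ := h'.2 U hU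
  obtain ⟨k, m, s, s', hs, hs'⟩ := exists_dir hc (v ≫ p) (v' ≫ p)
  obtain ⟨w, hw⟩ := hlift k m
  obtain ⟨y, hy, hgv⟩ := compare a p hc hker hlift U g v (g ≫ s) w (by
    rw [Category.assoc, hw, hs]) hg ((range_pre_le ρ g s).trans hg)
  obtain ⟨y', hy', hgv'⟩ := compare a p hc hker hlift U g' v' (g' ≫ s') w (by
    rw [Category.assoc, hw, hs']) hg' ((range_pre_le ρ g' s').trans hg')
  refine ⟨k, g ≫ s + g' ≫ s', w, (x + y) + (x' + y'), ?_, ?_, add_mem (add_mem hx hy) (add_mem hx' hy'), ?_⟩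
  · rw [hw, Preadditive.add_comp, Category.assoc, Category.assoc, hs, hs', hf, hf']
  · rintro _ ⟨e, rfl⟩
    have h1 : pre ρ (g ≫ s + g' ≫ s') e = pre ρ g (pre ρ s e) + pre ρ g' (pre ρ s' e) := by
      change (g ≫ s + g' ≫ s') ≫ (show c k ⟶ E from e) = g ≫ s ≫ (show c k ⟶ E from e) +
        g' ≫ s' ≫ (show c k ⟶ E from e)
      rw [Preadditive.add_comp, Category.assoc, Category.assoc]
    rw [h1]
    exact add_mem (hg ⟨_, rfl⟩) (hg' ⟨_, rfl⟩)
  · change (l + l') - (g ≫ s + g' ≫ s') ≫ w = (((show c i ⟶ E from x) + (show c i ⟶ E from y)) +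
      ((show c i ⟶ E from x') + (show c i ⟶ E from y'))) ≫ a
    rw [Preadditive.add_comp, Preadditive.add_comp, Preadditive.add_comp, Preadditive.add_comp, ← hl, ← hl',
      ← hgv, ← hgv']
    abel

end Torsor

/-- phantom maps from small objects to the suspension of `E` are zero -/
theorem LinTop.Small.phantom (hc : IsCountableGen.{v} c) {X : T} (hX : τ.Small X) (y : X ⟶ E⟦(1 : ℤ)⟧)
    (hy : ∀ (i : ι) (f : c i ⟶ X), f ≫ y = 0) : y = 0 := by
  obtain ⟨Y, a, p, hT⟩ := distinguished_cocone_triangle₂ y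
  have hap : a ≫ p = 0 := comp_distTriang_mor_zero₁₂ _ hT
  have hpy : p ≫ y = 0 := comp_distTriang_mor_zero₂₃ _ hT
  have hker : ∀ (i : ι) (u : c i ⟶ Y), u ≫ p = 0 → ∃ e : c i ⟶ E, u = e ≫ a :=
    fun i u hu => Triangle.coyoneda_exact₂ _ hT u hu
  have hlift : ∀ (i : ι) (f : c i ⟶ X), ∃ u : c i ⟶ Y, u ≫ p = f := by
    intro i f
    obtain ⟨u, hu⟩ := Triangle.coyoneda_exact₃ _ hT f (hy i f)
    exact ⟨u, hu.symm⟩
  have hinj : ∀ (i : ι) (e : c i ⟶ E), e ≫ a = 0 → e = 0 := by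
    intro i e he
    have h1 : e⟦(1 : ℤ)⟧' ≫ a⟦(1 : ℤ)⟧' = 0 := by rw [← Functor.map_comp, he, Functor.map_zero]
    obtain ⟨g, hg⟩ : ∃ g : (c i)⟦(1 : ℤ)⟧ ⟶ X, e⟦(1 : ℤ)⟧' = g ≫ y := Triangle.coyoneda_exact₁ _ hT _ h1
    obtain ⟨j, ⟨s⟩⟩ := hc.shift i 1
    have h2 : g ≫ y = 0 := by
      rw [← cancel_epi s.inv, comp_zero, ← Category.assoc]
      exact hy j _
    apply (shiftFunctor T (1 : ℤ)).map_injective
    rw [hg, h2, Functor.map_zero]
  choose l hl using fun (i : ι) (f : c i ⟶ X) => hX.exists_good τ a p hc hker hinj hlift hap f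
  let α : NatHom c X Y :=
    { app := l
      add := fun i f g => (hl i (f + g)).unique τ a p hc hker hinj hlift
        ((hl i f).add τ a p hc hker hlift (hl i g))
      nat := fun i j k f => (hl i (k ≫ f)).unique τ a p hc hker hinj hlift ((hl j f).nat τ a p k) }
  obtain ⟨s, hs⟩ := exists_lift hc α
  have h1 : ∀ (i : ι) (f : c i ⟶ X), f ≫ s ≫ p = f := by
    intro i f
    rw [← Category.assoc, ← hs]
    exact (hl i f).1
  have h2 : IsIso (s ≫ p) := by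
    apply isIso_of_forall hc
    · intro i z hz
      rw [← h1 i z, hz]
    · intro i f
      exact ⟨f, h1 i f⟩
  rw [← cancel_epi (s ≫ p), comp_zero, Category.assoc, hpy, comp_zero]

/-- small objects are acyclic -/
theorem acyclic_of_small (hc : IsCountableGen.{v} c) {X : T} (hX : ∀ n : ℤ, τ.Small (X⟦n⟧)) (n : ℤ)
    (f : X⟦n⟧ ⟶ E) : f = 0 := by
  have key : ∀ (n : ℤ) (y : X⟦n⟧ ⟶ E⟦(1 : ℤ)⟧), y = 0 := by
    intro n y
    apply (hX n).phantom τ hc
    intro i f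
    obtain ⟨j, ⟨s⟩⟩ := hc.shift i (-1)
    have h1 : τ.Small ((X⟦n⟧)⟦(-1 : ℤ)⟧) := (hX (n + -1)).of_iso ((shiftFunctorAdd T n (-1)).app X)
    let η := (shiftFunctorCompIsoId T (1 : ℤ) (-1) (by norm_num)).app E
    have h2 := h1.comp_eq_zero (y⟦(-1 : ℤ)⟧' ≫ η.hom) j (s.inv ≫ f⟦(-1 : ℤ)⟧')
    have h3 : (f ≫ y)⟦(-1 : ℤ)⟧' = 0 := by
      rw [← cancel_mono η.hom, ← cancel_epi s.inv, zero_comp, comp_zero, ← h2, Functor.map_comp]
      simp only [Category.assoc]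
    apply (shiftFunctor T (-1 : ℤ)).map_injective
    rw [h3, Functor.map_zero]
  apply (shiftFunctor T (1 : ℤ)).map_injective
  rw [Functor.map_zero, ← cancel_epi ((shiftFunctorAdd T n 1).hom.app X), comp_zero]
  exact key (n + 1) _

end Pool.Agent.Helper62.Hovey
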