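import Pool.Agent.Helper62.HoveyT.HomologyT

/-!
# The homology theory preserves coproducts
-/

open CategoryTheory CategoryTheory.Limits CategoryTheory.Pretriangulated

universe v u

namespace Pool.Agent.Helper62.Hovey

variable {T : Type u} [Category.{v} T] [HasZeroObject T] [HasShift T ℤ] [Preadditive T]
  [∀ n : ℤ, (shiftFunctor T n).Additive] [Pretriangulated T] [HasCoproducts.{v} T]

variable {ι : Type} {c : ι → T} {A : Type*} [Ring A] {E : T} {ρ : A →+* End E} (τ : LinTop ρ c)

lemma FT_comparison (hc : IsCountableGen.{v} c) {J : Type v} (X : J → T) :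
    IsIso (sigmaComparison (FT τ) X) := by
  classical
  have hhom := FT_homological τ hc
  have hadd : (FT τ).Additive := inferInstance
  rw [ConcreteCategory.isIso_iff_bijective]
  constructor
  · rw [injective_iff_map_eq_zero]
    intro z hz
    obtain ⟨s, y, rfl⟩ := exists_sum (fun j => (FT τ).obj (X j)) z
    refine Finset.sum_eq_zero fun j hj => ?_
    rw [map_sum] at hz
    have h1 : ∀ k, sigmaComparison (FT τ) X (Sigma.ι (fun j => (FT τ).obj (X j)) k (y k)) =
        (FT τ).map (Sigma.ι X k) (y k) := fun k =>
      ConcreteCategory.congr_hom (ι_comp_sigmaComparison (FT τ) X k) (y k)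
    simp only [h1] at hz
    -- the projection
    let p : (∐ X) ⟶ X j := Sigma.desc fun k => if h : k = j then eqToHom (by rw [h]) else 0
    have h2 := congrArg ((FT τ).map p) hz
    rw [map_sum, map_zero] at h2
    have h3 : ∀ k ∈ s, k ≠ j → (FT τ).map p ((FT τ).map (Sigma.ι X k) (y k)) = 0 := by
      intro k _ hk
      rw [← ConcreteCategory.comp_apply, ← Functor.map_comp]
      have : Sigma.ι X k ≫ p = 0 := by simp [p, hk]
      rw [this, Functor.map_zero]
      rfl
    rw [Finset.sum_eq_single j h3 (fun h => absurd hj h)] at h2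
    rw [← ConcreteCategory.comp_apply, ← Functor.map_comp] at h2
    have h4 : Sigma.ι X j ≫ p = 𝟙 _ := by simp [p]
    rw [h4, CategoryTheory.Functor.map_id, ConcreteCategory.id_apply] at h2
    rw [h2, map_zero]
  · intro z
    obtain ⟨i, f, φ, rfl⟩ := exists_repT τ hc z
    obtain ⟨s, g, rfl⟩ := hc.compact i _ f
    refine ⟨∑ j ∈ s, Sigma.ι (fun j => (FT τ).obj (X j)) j (clsT τ i (g j) φ), ?_⟩
    rw [map_sum, clsT_sum_left τ hc]
    refine Finset.sum_congr rfl fun j _ => ?_
    rw [← map_clsT]
    exact ConcreteCategory.congr_hom (ι_comp_sigmaComparison (FT τ) X j) _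

theorem FT_isHomologyTheory (hc : IsCountableGen.{v} c) : IsHomologyTheory.{v} (FT τ) where
  homological := FT_homological τ hc
  coproducts J := by
    have : ∀ X : J → T, PreservesColimit (Discrete.functor X) (FT τ) := fun X => by
      have := FT_comparison τ hc X
      exact PreservesCoproduct.of_iso_comparison (FT τ) X
    exact preservesColimitsOfShape_of_discrete _

end Pool.Agent.Helper62.Hovey
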