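import Pool.Agent.Helper62.HoveyT.SmallOf
import Pool.Agent.Helper62.HoveyT.Acyc
import Pool.Agent.Helper62.HoveyT.CoprodT
import Pool.Agent.Helper62.Hovey.Equiv

/-!
# Hovey's statement for topologised theories which are almost slender modulo artinian modules
-/

open CategoryTheory CategoryTheory.Limits CategoryTheory.Pretriangulated

universe v u

namespace Pool.Agent.Helper62.Hovey

variable {T : Type u} [Category.{v} T] [HasZeroObject T] [HasShift T ℤ] [Preadditive T]
  [∀ n : ℤ, (shiftFunctor T n).Additive] [Pretriangulated T] [HasCoproducts.{v} T] [HasProductsOfShape ℕ T]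

variable {ι : Type} {c : ι → T} {A : Type*} [Ring A] {E : T} {ρ : A →+* End E} (τ : LinTop ρ c)

theorem equivalence_iff_of_linTop (hc : IsCountableGen.{v} c) (hsl : τ.Slender) {X Y : T} (u : X ⟶ Y) :
    IsCohomologyEquivalence E u ↔ IsHomologyEquivalence (FT τ) u := by
  obtain ⟨Z, p, q, hT⟩ := distinguished_cocone_triangle u
  have key : IsHomologyEquivalence (FT τ) u ↔ ∀ n : ℤ, τ.Small (Z⟦n⟧) := by
    have hhom := FT_homological τ hc
    letI : (FT τ).ShiftSequence ℤ := Functor.ShiftSequence.tautological (FT τ) ℤ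
    have h1 := (FT τ).mem_homologicalKernel_trW_iff u
    have h2 := (FT τ).homologicalKernel.trW_iff_of_distinguished _ hT
    refine h1.symm.trans (h2.trans ?_)
    change (∀ n : ℤ, IsZero ((FT τ).obj (Z⟦n⟧))) ↔ _
    refine forall_congr' fun n => ?_
    rw [isZero_iff_forall, FT_zero_iff τ hc]
  refine ((cohomology_iso_iff E _ hT).trans (acyclic_shift_iff E Z)).trans (Iff.trans ?_ key.symm)
  exact ⟨fun h => small_of_acyclic τ hc hsl h, fun h => acyclic_of_small τ hc h⟩

end Pool.Agent.Helper62.Hovey
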