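import Pool.Agent.Helper62.Hovey.Artinian
import Pool.Agent.Helper62.Hovey.Coprod

/-!
# The homology theory dual to a topologised cohomology theory

`F(X)` is the colimit over all compact objects `C → X` of the groups of continuous homomorphisms from `Hom(C, E)`
to a divisible group.
-/

open CategoryTheory CategoryTheory.Limits CategoryTheory.Pretriangulated

universe w v u

namespace Pool.Agent.Helper62.Hovey

variable {T : Type u} [Category.{v} T] [Preadditive T]

variable {ι : Type}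

/-- linear topologies on the modules `Hom(c i, E)`: bases of open submodules, such that the maps are continuous and
strict and the modules are complete and separated -/
structure LinTop {A : Type*} [Ring A] {E : T} (ρ : A →+* End E) (c : ι → T) where
  opens : ∀ i, Set (Submodule A (HomMod ρ (c i)))
  nonempty : ∀ i, (opens i).Nonempty
  dir : ∀ i, ∀ U ∈ opens i, ∀ V ∈ opens i, ∃ W ∈ opens i, W ≤ U ∧ W ≤ V
  cont : ∀ {i j : ι} (k : c i ⟶ c j), ∀ U ∈ opens i, ∃ V ∈ opens j, V ≤ U.comap (pre ρ k)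
  strict : ∀ {i j : ι} (k : c i ⟶ c j), ∀ V ∈ opens j, ∃ U ∈ opens i,
    U ⊓ LinearMap.range (pre ρ k) ≤ V.map (pre ρ k)
  complete : ∀ (i : ι) (m : Submodule A (HomMod ρ (c i)) → HomMod ρ (c i)),
    (∀ U ∈ opens i, ∀ V ∈ opens i, V ≤ U → m V - m U ∈ U) → ∃ x, ∀ U ∈ opens i, x - m U ∈ U
  hausdorff : ∀ (i : ι) (x : HomMod ρ (c i)), (∀ U ∈ opens i, x ∈ U) → x = 0

variable {A : Type*} [Ring A] {E : T} {ρ : A →+* End E} {c : ι → T} (τ : LinTop ρ c)

/-- every morphism from a compact object to `X` factors through compact objects such that the images in cohomology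
become small -/
def LinTop.Small (X : T) : Prop :=
  ∀ (i : ι) (f : c i ⟶ X), ∀ U ∈ τ.opens i, ∃ (j : ι) (g : c i ⟶ c j) (h : c j ⟶ X), f = g ≫ h ∧
    LinearMap.range (pre ρ g) ≤ U

/-- continuous functionals -/
def LinTop.contSub (i : ι) : AddSubgroup ((c i ⟶ E) →+ Coeff c E) where
  carrier := {φ | ∃ U ∈ τ.opens i, ∀ x ∈ U, φ x = 0}
  zero_mem' := by
    obtain ⟨U, hU⟩ := τ.nonempty i
    exact ⟨U, hU, fun x _ => rfl⟩
  add_mem' := by
    rintro φ ψ ⟨U, hU, h⟩ ⟨V, hV, h'⟩
    obtain ⟨W, hW, h1, h2⟩ := τ.dir i U hU V hV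
    refine ⟨W, hW, fun x hx => ?_⟩
    change φ x + ψ x = 0
    rw [h x (h1 hx), h' x (h2 hx), add_zero]
  neg_mem' := by
    rintro φ ⟨U, hU, h⟩
    refine ⟨U, hU, fun x hx => ?_⟩
    change - φ x = 0
    rw [h x hx, neg_zero]

lemma LinTop.push_mem {i j : ι} (k : c i ⟶ c j) {φ : (c i ⟶ E) →+ Coeff c E} (hφ : φ ∈ τ.contSub i) :
    push c k φ ∈ τ.contSub j := by
  obtain ⟨U, hU, h⟩ := hφ
  obtain ⟨V, hV, hle⟩ := τ.cont k U hU
  exact ⟨V, hV, fun x hx => h _ (hle hx)⟩

/-- the push forward of a continuous functional -/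
def LinTop.pushC {i j : ι} (k : c i ⟶ c j) : τ.contSub i →+ τ.contSub j where
  toFun φ := ⟨push c k φ.1, τ.push_mem k φ.2⟩
  map_zero' := rfl
  map_add' _ _ := rfl

/-- `C ↦ Hom_cont(Hom(C, E), W)` on compact objects -/
noncomputable def GT : InducedCategory T c ⥤ AddCommGrpCat.{v} where
  obj i := AddCommGrpCat.of (τ.contSub i)
  map {i j} k := AddCommGrpCat.ofHom (τ.pushC k.hom)
  map_id i := by
    apply AddCommGrpCat.hom_ext
    apply AddMonoidHom.ext
    intro φ
    apply Subtype.ext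
    apply AddMonoidHom.ext
    intro e
    change φ.1 (𝟙 _ ≫ e) = φ.1 e
    rw [Category.id_comp]
  map_comp f g := by
    apply AddCommGrpCat.hom_ext
    apply AddMonoidHom.ext
    intro φ
    apply Subtype.ext
    apply AddMonoidHom.ext
    intro e
    change φ.1 ((f.hom ≫ g.hom) ≫ e) = φ.1 (f.hom ≫ g.hom ≫ e)
    rw [Category.assoc]

/-- the dual homology theory -/
noncomputable def FT : T ⥤ AddCommGrpCat.{v} := (inducedFunctor c).pointwiseLeftKanExtension (GT τ)

/-- the class of an element -/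
noncomputable def clsT {X : T} (i : ι) (f : c i ⟶ X) (φ : τ.contSub i) : (FT τ).obj X :=
  (colimit.ι (CostructuredArrow.proj (inducedFunctor c) X ⋙ GT τ) (mkObj c i f)) φ

lemma clsT_push {X : T} {i j : ι} (k : c i ⟶ c j) (f : c j ⟶ X) (φ : τ.contSub i) :
    clsT τ i (k ≫ f) φ = clsT τ j f (τ.pushC k φ) := by
  have := colimit.w (CostructuredArrow.proj (inducedFunctor c) X ⋙ GT τ) (mkHom (f := k ≫ f) (g := f) k rfl)
  exact (ConcreteCategory.congr_hom this φ).symm

lemma map_clsT {X Y : T} (u : X ⟶ Y) (i : ι) (f : c i ⟶ X) (φ : τ.contSub i) :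
    (FT τ).map u (clsT τ i f φ) = clsT τ i (f ≫ u) φ := by
  have : colimit.ι (CostructuredArrow.proj (inducedFunctor c) X ⋙ GT τ) (mkObj c i f) ≫ (FT τ).map u =
      colimit.ι (CostructuredArrow.proj (inducedFunctor c) Y ⋙ GT τ) (mkObj c i (f ≫ u)) :=
    colimit.ι_desc _ _
  exact ConcreteCategory.congr_hom this φ

lemma clsT_add {X : T} (i : ι) (f : c i ⟶ X) (φ ψ : τ.contSub i) :
    clsT τ i f (φ + ψ) = clsT τ i f φ + clsT τ i f ψ :=
  map_add (colimit.ι (CostructuredArrow.proj (inducedFunctor c) X ⋙ GT τ) (mkObj c i f)).hom φ ψ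

lemma clsT_zero {X : T} (i : ι) (f : c i ⟶ X) : clsT τ i f 0 = 0 :=
  map_zero (colimit.ι (CostructuredArrow.proj (inducedFunctor c) X ⋙ GT τ) (mkObj c i f)).hom

variable [HasZeroObject T] [HasShift T ℤ] [∀ n : ℤ, (shiftFunctor T n).Additive] [Pretriangulated T]
  [HasCoproducts.{w} T]

lemma exists_repT (hc : IsCountableGen.{w} c) {X : T} (z : (FT τ).obj X) :
    ∃ (i : ι) (f : c i ⟶ X) (φ : τ.contSub i), z = clsT τ i f φ := by
  haveI := isFiltered hc X
  obtain ⟨a, y, hy⟩ := Concrete.colimit_exists_rep (CostructuredArrow.proj (inducedFunctor c) X ⋙ GT τ) z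
  exact ⟨a.left, a.hom, y, hy.symm⟩

lemma clsT_eq_zero (hc : IsCountableGen.{w} c) {X : T} {i : ι} {f : c i ⟶ X} {φ : τ.contSub i}
    (h : clsT τ i f φ = 0) : ∃ (j : ι) (g : c i ⟶ c j) (k : c j ⟶ X), f = g ≫ k ∧ τ.pushC g φ = 0 := by
  haveI := isFiltered hc X
  have h0 : clsT τ i f φ = clsT τ i f 0 := by rw [h, clsT_zero]
  obtain ⟨b, p, q, hpq⟩ := Concrete.colimit_exists_of_rep_eq
    (CostructuredArrow.proj (inducedFunctor c) X ⋙ GT τ) (i := mkObj c i f) (j := mkObj c i f) φ 0 h0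
  refine ⟨b.left, p.left.hom, b.hom, (CostructuredArrow.w p).symm, ?_⟩
  refine Eq.trans hpq ?_
  exact map_zero ((CostructuredArrow.proj (inducedFunctor c) X ⋙ GT τ).map q).hom

/-- additivity in the morphism -/
lemma clsT_add_left (hc : IsCountableGen.{w} c) {X : T} {i : ι} (f g : c i ⟶ X) (φ : τ.contSub i) :
    clsT τ i (f + g) φ = clsT τ i f φ + clsT τ i g φ := by
  haveI := isFiltered hc X
  let b := IsFiltered.max (mkObj c i f) (mkObj c i g)
  let p := IsFiltered.leftToMax (mkObj c i f) (mkObj c i g)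
  let q := IsFiltered.rightToMax (mkObj c i f) (mkObj c i g)
  let p' : c i ⟶ c b.left := p.left.hom
  let q' : c i ⟶ c b.left := q.left.hom
  let h : c b.left ⟶ X := b.hom
  have hp : p' ≫ h = f := CostructuredArrow.w p
  have hq : q' ≫ h = g := CostructuredArrow.w q
  rw [← hp, ← hq, ← Preadditive.add_comp, clsT_push, clsT_push, clsT_push, ← clsT_add]
  congr 1
  apply Subtype.ext
  ext e : 1
  change φ.1 ((p' + q') ≫ e) = φ.1 (p' ≫ e) + φ.1 (q' ≫ e)
  rw [Preadditive.add_comp, map_add]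

lemma clsT_zero_left (hc : IsCountableGen.{w} c) {X : T} (i : ι) (φ : τ.contSub i) :
    clsT τ i (0 : c i ⟶ X) φ = 0 := by
  have := clsT_add_left τ hc (0 : c i ⟶ X) 0 φ
  simpa using this

lemma clsT_sum_left (hc : IsCountableGen.{w} c) {X : T} {i : ι} {J : Type*} (s : Finset J) (f : J → (c i ⟶ X))
    (φ : τ.contSub i) : clsT τ i (∑ j ∈ s, f j) φ = ∑ j ∈ s, clsT τ i (f j) φ := by
  classical
  induction s using Finset.induction_on with
  | empty => simp [clsT_zero_left τ hc]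
  | insert a s ha ih => rw [Finset.sum_insert ha, Finset.sum_insert ha, clsT_add_left τ hc, ih]

lemma exact_atT (hc : IsCountableGen.{w} c) (Δ : Triangle T) (hΔ : Δ ∈ distTriang T) (z : (FT τ).obj Δ.obj₂)
    (hz : (FT τ).map Δ.mor₂ z = 0) : ∃ y : (FT τ).obj Δ.obj₁, (FT τ).map Δ.mor₁ y = z := by
  obtain ⟨i, f, φ, rfl⟩ := exists_repT τ hc z
  rw [map_clsT] at hz
  obtain ⟨j, g, h, hg, hφ⟩ := clsT_eq_zero τ hc hz
  obtain ⟨l, k, hk, hcok, -⟩ := hc.exists_kernel i j g
  obtain ⟨V, hV, hφV⟩ := φ.2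
  obtain ⟨U, hU, hUV⟩ := τ.strict k V hV
  -- `φ` comes from `c l`
  let kk : (c i ⟶ E) →+ (c l ⟶ E) :=
    { toFun := fun e => k ≫ e, map_zero' := comp_zero,
      map_add' := fun _ _ => Preadditive.comp_add _ _ _ _ _ _ }
  let UU : AddSubgroup (c l ⟶ E) := U.toAddSubgroup
  obtain ⟨ψ, hψ⟩ := exists_factor (K := Σ i : ι, CharacterModule (c i ⟶ E))
    ((kk.coprod UU.subtype : (c i ⟶ E) × UU →+ (c l ⟶ E))) (φ.1.comp (AddMonoidHom.fst (c i ⟶ E) UU)) (by
      rintro ⟨e, x, hx⟩ he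
      change k ≫ e + x = 0 at he
      change φ.1 e = 0
      have h1 : (k ≫ e : c l ⟶ E) = -x := eq_neg_of_add_eq_zero_left he
      have h2 : pre ρ k e ∈ U ⊓ LinearMap.range (pre ρ k) := by
        refine ⟨?_, ⟨e, rfl⟩⟩
        change (k ≫ e : c l ⟶ E) ∈ UU
        rw [h1]
        exact UU.neg_mem hx
      obtain ⟨e₁, he', hee⟩ := hUV h2
      let e' : c i ⟶ E := e₁
      have h3 : k ≫ (e - e') = 0 := by
        rw [Preadditive.comp_sub, sub_eq_zero]
        exact hee.symm
      obtain ⟨e'', he''⟩ := hcok _ _ h3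
      have h4 : φ.1 (g ≫ e'') = 0 := by
        have := congrArg Subtype.val hφ
        exact DFunLike.congr_fun this e''
      have h5 : e = e' + g ≫ e'' := by rw [← he'']; abel
      have h6 : φ.1 e' = 0 := hφV e' he'
      rw [h5, map_add, h4, h6, add_zero])
  have hψ1 : ∀ e : c i ⟶ E, φ.1 e = ψ (k ≫ e) := by
    intro e
    have := hψ ⟨e, 0⟩
    change φ.1 e = ψ (k ≫ e + 0) at this
    rwa [add_zero] at this
  have hψ2 : ψ ∈ τ.contSub l := by
    refine ⟨U, hU, fun x hx => ?_⟩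
    have := hψ ⟨0, ⟨x, hx⟩⟩
    change φ.1 0 = ψ (k ≫ (0 : c i ⟶ E) + (show c l ⟶ E from x)) at this
    rw [map_zero, comp_zero, zero_add] at this
    exact this.symm
  obtain ⟨x, hx⟩ : ∃ x : c l ⟶ Δ.obj₁, k ≫ f = x ≫ Δ.mor₁ := by
    apply Triangle.coyoneda_exact₂ _ hΔ
    rw [Category.assoc, hg, ← Category.assoc, hk, zero_comp]
  refine ⟨clsT τ l x ⟨ψ, hψ2⟩, ?_⟩
  rw [map_clsT, ← hx, clsT_push]
  congr 1
  apply Subtype.ext
  ext e : 1
  exact (hψ1 e).symm

lemma FT_homological (hc : IsCountableGen.{w} c) : (FT τ).IsHomological where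
  map_zero X Y := by
    ext z
    obtain ⟨i, f, φ, rfl⟩ := exists_repT τ hc z
    refine (map_clsT τ (0 : X ⟶ Y) i f φ).trans ?_
    rw [comp_zero, clsT_zero_left τ hc]
    rfl
  exact Δ hΔ := by
    rw [ShortComplex.ab_exact_iff]
    intro z hz
    exact exact_atT τ hc Δ hΔ z hz

/-- vanishing of the homology theory -/
lemma FT_zero_iff (hc : IsCountableGen.{w} c) (X : T) :
    (∀ z : (FT τ).obj X, z = 0) ↔ τ.Small X := by
  classical
  constructor
  · intro hX i f U hU
    let UU : AddSubgroup (c i ⟶ E) := U.toAddSubgroup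
    -- a functional with kernel `U`
    let φ : (c i ⟶ E) →+ Coeff c E :=
      { toFun := fun e κ => if h : ∃ h : κ.1 = i, ∀ x ∈ UU, (h ▸ κ.2 : CharacterModule (c i ⟶ E)) x = 0 then
          (h.choose ▸ κ.2 : CharacterModule (c i ⟶ E)) e else 0
        map_zero' := by
          funext κ
          split_ifs with h
          · simp
          · rfl
        map_add' := by
          intro a b
          funext κ
          simp only [Pi.add_apply]
          split_ifs with h
          · simp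
          · simp }
    have hφU : ∀ x ∈ UU, φ x = 0 := by
      intro x hx
      funext κ
      change dite _ _ _ = 0
      split_ifs with h
      · exact h.choose_spec x hx
      · rfl
    have hφ : ∀ e : c i ⟶ E, φ e = 0 → e ∈ UU := by
      intro e he
      by_contra hcon
      have h1 : (QuotientAddGroup.mk' UU e : (c i ⟶ E) ⧸ UU) ≠ 0 := by
        intro h
        exact hcon ((QuotientAddGroup.eq_zero_iff e).mp h)
      apply h1
      apply CharacterModule.eq_zero_of_character_apply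
      intro χ
      let χ' : CharacterModule (c i ⟶ E) := χ.comp (QuotientAddGroup.mk' UU)
      have h2 : ∀ x ∈ UU, χ' x = 0 := by
        intro x hx
        change χ (QuotientAddGroup.mk' UU x) = 0
        have : QuotientAddGroup.mk' UU x = 0 := (QuotientAddGroup.eq_zero_iff x).mpr hx
        rw [this, map_zero]
      have h3 : (∃ h : (⟨i, χ'⟩ : Σ i : ι, CharacterModule (c i ⟶ E)).1 = i,
          ∀ x ∈ UU, (h ▸ χ' : CharacterModule (c i ⟶ E)) x = 0) := ⟨rfl, h2⟩
      have h4 := congrFun he ⟨i, χ'⟩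
      change dite _ _ _ = 0 at h4
      rw [dif_pos h3] at h4
      exact h4
    obtain ⟨j, g, h, hf, hg⟩ := clsT_eq_zero τ hc (hX (clsT τ i f ⟨φ, U, hU, hφU⟩))
    refine ⟨j, g, h, hf, ?_⟩
    rintro _ ⟨e, rfl⟩
    have h5 := DFunLike.congr_fun (congrArg Subtype.val hg) e
    exact hφ _ h5
  · intro h z
    obtain ⟨i, f, φ, rfl⟩ := exists_repT τ hc z
    obtain ⟨U, hU, hφ⟩ := φ.2
    obtain ⟨j, g, k, rfl, he⟩ := h i f U hU
    rw [clsT_push]
    have : τ.pushC g φ = 0 := by
      apply Subtype.ext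
      ext e : 1
      exact hφ _ (he ⟨e, rfl⟩)
    rw [this, clsT_zero]

end Pool.Agent.Helper62.Hovey
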