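import Mathlib

/-!
# Linear topologies on modules which are extensions of finitely generated by artinian modules
-/

universe v

namespace Pool.Agent.Helper62.Hovey

/-- the module has an artinian submodule with finitely generated quotient -/
def AF (A : Type v) [CommRing A] (M : Type v) [AddCommGroup M] [Module A M] : Prop :=
  ∃ Γ : Submodule A M, IsArtinian A Γ ∧ Module.Finite A (M ⧸ Γ)

/-- the open submodules: those which contain `𝔞 ^ k • N` for a finitely generated `N` with artinian `M / N` -/
def Opn {A : Type v} [CommRing A] (𝔞 : Ideal A) (M : Type v) [AddCommGroup M] [Module A M] :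
    Set (Submodule A M) :=
  {U | ∃ N : Submodule A M, N.FG ∧ IsArtinian A (M ⧸ N) ∧ ∃ k : ℕ, 𝔞 ^ k • N ≤ U}

end Pool.Agent.Helper62.Hovey
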