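import Pool.Agent.Helper62.HoveyT.HomologyT
import Pool.Agent.Helper62.Hovey.MainA

/-!
# Acyclic objects are small
-/

open CategoryTheory CategoryTheory.Limits CategoryTheory.Pretriangulated

universe v u

namespace Pool.Agent.Helper62.Hovey

variable {T : Type u} [Category.{v} T] [HasZeroObject T] [HasShift T ℤ] [Preadditive T]
  [∀ n : ℤ, (shiftFunctor T n).Additive] [Pretriangulated T] [HasCoproducts.{v} T]

variable {ι : Type} {c : ι → T} {A : Type*} [Ring A] {E : T} {ρ : A →+* End E} (τ : LinTop ρ c)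

/-- the images of the cohomology of the factorisations are, modulo open submodules, eventually in artinian modules -/
def LinTop.Slender : Prop :=
  ∀ (i : ι), ∀ U ∈ τ.opens i, ∃ Γ : Submodule A (HomMod ρ (c i) ⧸ U), IsArtinian A Γ ∧
    ∀ φ : (ℕ → A) →ₗ[A] (HomMod ρ (c i) ⧸ U), ∃ N : ℕ, ∀ n, N ≤ n → φ (Pi.single n 1) ∈ Γ

/-- factorisations with images in the modules `Γ` -/
theorem exists_facT [HasProductsOfShape ℕ T] (hc : IsCountableGen.{v} c) {X : T} (i : ι)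
    (U : Submodule A (HomMod ρ (c i))) (Γ : Submodule A (HomMod ρ (c i) ⧸ U))
    (hsl : ∀ φ : (ℕ → A) →ₗ[A] (HomMod ρ (c i) ⧸ U), ∃ N : ℕ, ∀ n, N ≤ n → φ (Pi.single n 1) ∈ Γ)
    (h0 : ∀ y : X ⟶ E, y = 0) (h1 : ∀ y : X ⟶ E⟦(1 : ℤ)⟧, y = 0) (f : c i ⟶ X) :
    ∃ (j : ι) (g : c i ⟶ c j) (h : c j ⟶ X), f = g ≫ h ∧ (LinearMap.range (pre ρ g)).map U.mkQ ≤ Γ := by
  by_contra hcon
  push Not at hcon
  obtain ⟨R⟩ := exists_redPower.{v} E
  obtain ⟨x, y, hx, hxy⟩ := exists_detect R hc f (fun x => U.mkQ (x : HomMod ρ (c i)) ∉ Γ) (by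
    intro j g h hw
    obtain ⟨_, ⟨_, ⟨e, rfl⟩, rfl⟩, he⟩ := SetLike.not_le_iff_exists.mp (hcon j g h hw)
    exact ⟨e, he⟩)
  obtain ⟨φ, hadd, hsmul, N, hN⟩ := exists_linear ρ R hc h0 h1 f x y hxy
  let φ' : (ℕ → A) →ₗ[A] HomMod ρ (c i) := { toFun := φ, map_add' := hadd, map_smul' := hsmul }
  obtain ⟨N', hN'⟩ := hsl (U.mkQ ∘ₗ φ')
  have h2 : φ (Pi.single (max N N') 1) = x (max N N') := hN _ (le_max_left _ _)
  have h3 := hN' (max N N') (le_max_right _ _)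
  apply hx (max N N')
  rw [← h2]
  exact h3

/-- the image of the cohomology of the target of `g` modulo `U` -/
abbrev rg {i j : ι} (U : Submodule A (HomMod ρ (c i))) (g : c i ⟶ c j) : Submodule A (HomMod ρ (c i) ⧸ U) :=
  (LinearMap.range (pre ρ g)).map U.mkQ

/-- the intersection of the images of all factorisations through the generators, modulo `U` -/
def jayT {X : T} {i : ι} (U : Submodule A (HomMod ρ (c i))) (f : c i ⟶ X) : Submodule A (HomMod ρ (c i) ⧸ U) :=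
  ⨅ p : {p : Σ j : ι, (c i ⟶ c j) // ∃ h, f = p.2 ≫ h}, rg U p.1.2

lemma jayT_le {X : T} {i j : ι} (U : Submodule A (HomMod ρ (c i))) (f : c i ⟶ X) (g : c i ⟶ c j) (h : c j ⟶ X)
    (w : f = g ≫ h) : jayT U f ≤ rg U g :=
  iInf_le (fun p : {p : Σ j : ι, (c i ⟶ c j) // ∃ h, f = p.2 ≫ h} => rg U p.1.2) ⟨⟨j, g⟩, h, w⟩

lemma rg_comp_le {i j l : ι} (U : Submodule A (HomMod ρ (c i))) (g : c i ⟶ c j) (u : c j ⟶ c l) :
    rg U (g ≫ u) ≤ rg U g := Submodule.map_mono (range_pre_le ρ g u)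

lemma exists_jayT (hc : IsCountableGen.{v} c) {X : T} {i : ι} (U : Submodule A (HomMod ρ (c i))) (f : c i ⟶ X)
    (hf : ∃ (j : ι) (g : c i ⟶ c j) (h : c j ⟶ X), f = g ≫ h ∧ IsArtinian A (rg U g)) :
    ∃ (j : ι) (g : c i ⟶ c j) (h : c j ⟶ X), f = g ≫ h ∧ rg U g = jayT U f ∧ IsArtinian A (jayT U f) := by
  obtain ⟨j₀, g₀, h₀, hw₀, hart₀⟩ := hf
  let Γ : Submodule A (HomMod ρ (c i) ⧸ U) := rg U g₀
  have hΓ : IsArtinian A Γ := hart₀
  let S : Set (Submodule A Γ) := {N | ∃ (j : ι) (g : c i ⟶ c j) (h : c j ⟶ X), f = g ≫ h ∧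
    N.map Γ.subtype = rg U g}
  have hS : ∀ (j : ι) (g : c i ⟶ c j) (h : c j ⟶ X), f = g ≫ h → rg U g ≤ Γ →
      (rg U g).comap Γ.subtype ∈ S := by
    intro j g h hw hle
    refine ⟨j, g, h, hw, ?_⟩
    rw [Submodule.map_comap_subtype, inf_eq_right.mpr hle]
  have hne : S.Nonempty := ⟨_, hS j₀ g₀ h₀ hw₀ le_rfl⟩
  obtain ⟨N, ⟨j, g, h, hw, hN⟩, hmin⟩ := (inferInstance : WellFoundedLT (Submodule A Γ)).wf.has_min S hne
  have hgΓ : rg U g ≤ Γ := by
    rw [← hN]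
    exact Submodule.map_subtype_le _ _
  have hle : rg U g ≤ jayT U f := by
    refine le_iInf ?_
    rintro ⟨⟨j', g'⟩, h', hw'⟩
    change rg U g ≤ rg U g'
    obtain ⟨l, m, u, u', hu, hu', huu⟩ := exists_span hc g h g' h' (hw.symm.trans hw')
    have h1 : rg U (g ≫ u) ≤ Γ := (rg_comp_le U g u).trans hgΓ
    have h2 := hS l (g ≫ u) m (by rw [Category.assoc, hu, hw]) h1
    have h3 : (rg U (g ≫ u)).comap Γ.subtype ≤ N := by
      rw [← Submodule.comap_map_eq_of_injective Γ.injective_subtype N, hN]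
      exact Submodule.comap_mono (rg_comp_le U g u)
    have h4 : N ≤ (rg U (g ≫ u)).comap Γ.subtype := by
      by_contra hcon
      exact hmin _ h2 (lt_of_le_not_ge h3 hcon)
    rw [← hN]
    calc N.map Γ.subtype ≤ ((rg U (g ≫ u)).comap Γ.subtype).map Γ.subtype := Submodule.map_mono h4
      _ ≤ rg U (g ≫ u) := Submodule.map_comap_le _ _
      _ = rg U (g' ≫ u') := by rw [huu]
      _ ≤ rg U g' := rg_comp_le U g' u'
  have heq : rg U g = jayT U f := le_antisymm hle (jayT_le U f g h hw)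
  have hle' : jayT U f ≤ Γ := by
    rw [← heq]
    exact hgΓ
  exact ⟨j, g, h, hw, heq, isArtinian_of_le hle'⟩

/-- the transition maps -/
abbrev trT {i i' : ι} (U' : Submodule A (HomMod ρ (c i'))) (U : Submodule A (HomMod ρ (c i))) (k : c i' ⟶ c i)
    (h : U ≤ U'.comap (pre ρ k)) : (HomMod ρ (c i) ⧸ U) →ₗ[A] (HomMod ρ (c i') ⧸ U') := U.mapQ U' (pre ρ k) h

lemma map_rg {i i' j : ι} (U' : Submodule A (HomMod ρ (c i'))) (U : Submodule A (HomMod ρ (c i)))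
    (k : c i' ⟶ c i) (h : U ≤ U'.comap (pre ρ k)) (g : c i ⟶ c j) :
    (rg U g).map (trT U' U k h) = rg U' (k ≫ g) := by
  have h1 : trT U' U k h ∘ₗ U.mkQ = U'.mkQ ∘ₗ pre ρ k := Submodule.mapQ_mkQ _ _ _
  rw [rg, ← Submodule.map_comp, h1, Submodule.map_comp, map_range_pre]

lemma map_jayT (hc : IsCountableGen.{v} c) {X : T} {i' i : ι} (U' : Submodule A (HomMod ρ (c i')))
    (U : Submodule A (HomMod ρ (c i))) (k : c i' ⟶ c i) (hk : U ≤ U'.comap (pre ρ k)) (f : c i ⟶ X)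
    (hmin : ∃ (j : ι) (g : c i ⟶ c j) (h : c j ⟶ X), f = g ≫ h ∧ rg U g = jayT U f)
    (hmin' : ∃ (j : ι) (g : c i' ⟶ c j) (h : c j ⟶ X), k ≫ f = g ≫ h ∧ rg U' g = jayT U' (k ≫ f)) :
    (jayT U f).map (trT U' U k hk) = jayT U' (k ≫ f) := by
  obtain ⟨j, g, h, hw, hg⟩ := hmin
  obtain ⟨j', g', h', hw', hg'⟩ := hmin'
  obtain ⟨l, m, u, u', hu, hu', huu⟩ := exists_span hc (k ≫ g) h g' h' (by rw [Category.assoc, ← hw, hw'])
  have h1 : rg U (g ≫ u) = jayT U f := by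
    apply le_antisymm
    · rw [← hg]
      exact rg_comp_le U g u
    · exact jayT_le U f (g ≫ u) m (by rw [Category.assoc, hu, hw])
  have h2 : (jayT U f).map (trT U' U k hk) = rg U' (g' ≫ u') := by
    rw [← h1, map_rg, ← Category.assoc, huu]
  rw [h2]
  apply le_antisymm
  · rw [← hg']
    exact rg_comp_le U' g' u'
  · exact jayT_le U' _ (g' ≫ u') m (by rw [Category.assoc, hu', ← hw'])

/-- If every morphism from a generator factors such that the first factor has its image in an artinian module, then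
an object without morphisms to `E` is small. -/
theorem small_of_artinian (hc : IsCountableGen.{v} c) {X : T}
    (hfac : ∀ (i : ι) (f : c i ⟶ X), ∀ U ∈ τ.opens i, ∃ (j : ι) (g : c i ⟶ c j) (h : c j ⟶ X), f = g ≫ h ∧
      IsArtinian A (rg U g)) (h0 : ∀ y : X ⟶ E, y = 0) : τ.Small X := by
  classical
  have hJ : ∀ (i : ι) (f : c i ⟶ X), ∀ U ∈ τ.opens i, ∃ (j : ι) (g : c i ⟶ c j) (h : c j ⟶ X), f = g ≫ h ∧
      rg U g = jayT U f ∧ IsArtinian A (jayT U f) := fun i f U hU => exists_jayT hc U f (hfac i f U hU)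
  have hmin : ∀ (i : ι) (f : c i ⟶ X), ∀ U ∈ τ.opens i, ∃ (j : ι) (g : c i ⟶ c j) (h : c j ⟶ X), f = g ≫ h ∧
      rg U g = jayT U f := fun i f U hU => by
    obtain ⟨j, g, h, h1, h2, -⟩ := hJ i f U hU
    exact ⟨j, g, h, h1, h2⟩
  -- all elements vanish
  have key : ∀ (i : ι) (f : c i ⟶ X), ∀ U ∈ τ.opens i, ∀ a ∈ jayT U f, a = 0 := by
    intro i f U hU a ha
    let Λ : Type v := Σ j : ι, (c j ⟶ X) × τ.opens j
    let Mor : Λ → Λ → Type v := fun σ υ => {k : c σ.1 ⟶ c υ.1 // k ≫ υ.2.1 = σ.2.1 ∧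
      υ.2.2.1 ≤ σ.2.2.1.comap (pre ρ k)}
    obtain ⟨w, hw, hwk, hwa⟩ := Pool.Agent.Helper24.LC.linear_compactness (R := A) (Λ := Λ) Mor
      (M := fun σ => HomMod ρ (c σ.1) ⧸ σ.2.2.1)
      (fun {σ υ} k => trT σ.2.2.1 υ.2.2.1 k.1 k.2.2)
      (fun σ => ⟨⟨𝟙 _, Category.id_comp _, by rw [pre_id]; exact le_refl _⟩, by
        apply Submodule.linearMap_qext
        apply LinearMap.ext
        intro x
        change σ.2.2.1.mkQ (pre ρ (𝟙 _) x) = σ.2.2.1.mkQ x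
        rw [pre_id]
        rfl⟩)
      (fun {σ υ ν} k l => ⟨⟨k.1 ≫ l.1, by rw [Category.assoc, l.2.1, k.2.1], by
          rw [pre_comp, Submodule.comap_comp]
          exact l.2.2.trans (Submodule.comap_mono k.2.2)⟩, by
        apply Submodule.linearMap_qext
        apply LinearMap.ext
        intro x
        change σ.2.2.1.mkQ (pre ρ (k.1 ≫ l.1) x) = σ.2.2.1.mkQ (pre ρ k.1 (pre ρ l.1 x))
        rw [pre_comp]
        rfl⟩)
      (fun σ υ => by
        obtain ⟨l, m, u, u', hu, hu'⟩ := exists_dir hc σ.2.1 υ.2.1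
        obtain ⟨V, hV, hVU⟩ := τ.cont u _ σ.2.2.2
        obtain ⟨V', hV', hVU'⟩ := τ.cont u' _ υ.2.2.2
        obtain ⟨W, hW, hWV, hWV'⟩ := τ.dir l V hV V' hV'
        exact ⟨⟨l, m, ⟨W, hW⟩⟩, ⟨⟨u, hu, hWV.trans hVU⟩⟩, ⟨⟨u', hu', hWV'.trans hVU'⟩⟩⟩)
      (fun {σ υ} k k' => by
        obtain ⟨l, m, u, hu, huu⟩ := exists_coeq hc υ.2.1 k.1 k'.1 (by rw [k.2.1, k'.2.1])
        obtain ⟨V, hV, hVU⟩ := τ.cont u _ υ.2.2.2
        refine ⟨⟨l, m, ⟨V, hV⟩⟩, ⟨u, hu, hVU⟩, ?_⟩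
        apply Submodule.linearMap_qext
        apply LinearMap.ext
        intro x
        change σ.2.2.1.mkQ ((pre ρ k.1 ∘ₗ pre ρ u) x) = σ.2.2.1.mkQ ((pre ρ k'.1 ∘ₗ pre ρ u) x)
        rw [← pre_comp, ← pre_comp, huu])
      (fun σ => jayT σ.2.2.1 σ.2.1)
      (fun σ => by
        obtain ⟨j, g, h, h1, h2, h3⟩ := hJ σ.1 σ.2.1 σ.2.2.1 σ.2.2.2
        exact h3)
      (fun {σ υ} k => by
        have h1 := hmin σ.1 (k.1 ≫ υ.2.1) σ.2.2.1 σ.2.2.2
        rw [map_jayT hc σ.2.2.1 υ.2.2.1 k.1 k.2.2 υ.2.1 (hmin υ.1 υ.2.1 υ.2.2.1 υ.2.2.2) h1]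
        exact congrArg (jayT σ.2.2.1) k.2.1)
      ⟨i, f, ⟨U, hU⟩⟩ a ha
    -- the elements of the inverse limit
    have hx : ∀ (j : ι) (g : c j ⟶ X), ∃ x : HomMod ρ (c j), ∀ (V : Submodule A (HomMod ρ (c j)))
        (hV : V ∈ τ.opens j), V.mkQ x = w ⟨j, g, ⟨V, hV⟩⟩ := by
      intro j g
      choose r hr using fun (V : Submodule A (HomMod ρ (c j))) (z : HomMod ρ (c j) ⧸ V) => V.mkQ_surjective z
      let m : Submodule A (HomMod ρ (c j)) → HomMod ρ (c j) := fun V =>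
        if hV : V ∈ τ.opens j then r V (w ⟨j, g, ⟨V, hV⟩⟩) else 0
      have hm : ∀ (V : Submodule A (HomMod ρ (c j))) (hV : V ∈ τ.opens j), V.mkQ (m V) = w ⟨j, g, ⟨V, hV⟩⟩ := by
        intro V hV
        have : m V = r V (w ⟨j, g, ⟨V, hV⟩⟩) := dif_pos hV
        rw [this, hr]
      obtain ⟨x, hx⟩ := τ.complete j m (by
        intro V hV V' hV' hle
        have h1 := hwk (σ := ⟨j, g, ⟨V, hV⟩⟩) (τ := ⟨j, g, ⟨V', hV'⟩⟩) ⟨𝟙 _, Category.id_comp _, by
          rw [pre_id]; exact hle⟩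
        rw [← hm V hV, ← hm V' hV'] at h1
        have h2 : V.mkQ (pre ρ (𝟙 _) (m V')) = V.mkQ (m V) := h1
        rw [pre_id] at h2
        have h3 : V.mkQ (m V' - m V) = 0 := by rw [map_sub, sub_eq_zero]; exact h2
        rwa [Submodule.mkQ_apply, Submodule.Quotient.mk_eq_zero] at h3)
      refine ⟨x, fun V hV => ?_⟩
      rw [← hm V hV, ← sub_eq_zero, ← map_sub, Submodule.mkQ_apply, Submodule.Quotient.mk_eq_zero]
      exact hx V hV
    choose x hx using hx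
    have hxeq : ∀ (j : ι) (y z : HomMod ρ (c j)), (∀ V ∈ τ.opens j, V.mkQ y = V.mkQ z) → y = z := by
      intro j y z h
      rw [← sub_eq_zero]
      apply τ.hausdorff j
      intro V hV
      have h1 := h V hV
      rw [← sub_eq_zero, ← map_sub, Submodule.mkQ_apply, Submodule.Quotient.mk_eq_zero] at h1
      exact h1
    have hxk : ∀ (j l : ι) (k : c j ⟶ c l) (g : c l ⟶ X), x j (k ≫ g) = pre ρ k (x l g) := by
      intro j l k g
      apply hxeq
      intro V hV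
      obtain ⟨V', hV', hle⟩ := τ.cont k V hV
      have h1 := hwk (σ := ⟨j, k ≫ g, ⟨V, hV⟩⟩) (τ := ⟨l, g, ⟨V', hV'⟩⟩) ⟨k, rfl, hle⟩
      rw [hx j (k ≫ g) V hV, ← h1, ← hx l g V' hV']
      rfl
    let α : NatHom c X E :=
      { app := fun j g => x j g
        add := by
          intro j g g'
          obtain ⟨l, m, u, u', hu, hu'⟩ := exists_dir hc g g'
          have h1 := hxk j l u m
          have h2 := hxk j l u' m
          have h3 := hxk j l (u + u') m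
          rw [hu] at h1
          rw [hu'] at h2
          rw [Preadditive.add_comp, hu, hu'] at h3
          rw [h1, h2, h3]
          exact Preadditive.add_comp _ _ _ _ _ _
        nat := fun j l k g => hxk j l k g }
    obtain ⟨y, hy⟩ := exists_lift hc α
    have h1 : x i f = f ≫ y := hy i f
    rw [h0 y, comp_zero] at h1
    have h2 := hx i f U hU
    have h3 : x i f = (0 : HomMod ρ (c i)) := h1
    rw [h3, map_zero] at h2
    rw [← hwa]
    exact h2.symm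
  intro i f U hU
  obtain ⟨j, g, h, h1, h2⟩ := hmin i f U hU
  refine ⟨j, g, h, h1, ?_⟩
  rintro _ ⟨e, rfl⟩
  have h3 := key i f U hU (U.mkQ (pre ρ g e)) (h2 ▸ ⟨_, ⟨e, rfl⟩, rfl⟩)
  rwa [Submodule.mkQ_apply, Submodule.Quotient.mk_eq_zero] at h3

/-- acyclic objects are small -/
theorem small_of_acyclic [HasProductsOfShape ℕ T] (hc : IsCountableGen.{v} c) (hsl : τ.Slender) {X : T}
    (h : ∀ (n : ℤ) (f : X⟦n⟧ ⟶ E), f = 0) (n : ℤ) : τ.Small (X⟦n⟧) := by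
  classical
  have h0 : ∀ y : X⟦n⟧ ⟶ E, y = 0 := h n
  have h1 : ∀ y : X⟦n⟧ ⟶ E⟦(1 : ℤ)⟧, y = 0 := by
    refine (acyclic_shift_iff E (X⟦n⟧)).mpr (fun m f => ?_) 1
    have := h (n + m) ((shiftFunctorAdd T n m).hom.app X ≫ f)
    rw [← cancel_epi ((shiftFunctorAdd T n m).hom.app X), this, comp_zero]
  refine small_of_artinian τ hc (fun i f U hU => ?_) h0
  obtain ⟨Γ, hΓ, hφ⟩ := hsl i U hU
  obtain ⟨j, g, h, hw, hle⟩ := exists_facT hc i U Γ hφ h0 h1 f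
  exact ⟨j, g, h, hw, isArtinian_of_le hle⟩

end Pool.Agent.Helper62.Hovey
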